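import Pool.Agent.Lib.MP_eacc3c_al.Cnst

/-!
# MP_eacc3c_al: `A_e` is not an exterior algebra on `U_e` for `e` in the orbit `F₄(a₃)`

Let `𝔤` be of type `F₄` and `e` in the orbit `F₄(a₃)`; then `dim B_e = 4` and `A(e)` is the
symmetric group `S₄`. The representation `V ⊗ ρ` of `W × A(e)`, where `V` is the reflection
representation and `ρ` the two-dimensional irreducible representation of `S₄`, occurs in
`H^6(B_e)`. So `(H^6(B_e) ⊗ V)^W` contains two linearly independent elements `u, v`. Their product
in `A_e` is an element of `H^12(B_e) ⊗ Λ² V = 0`, but `u ∧ v ≠ 0` in `Λ^*(U_e)`: the homomorphism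
`ψ` is not injective.

The Springer fibres are not constructed in Lean. `SpringerSystem` and `Green` (in `Defs`) list the
published theorems on them which are used, for all 16 nilpotent orbits of type `F₄`: graded
commutative algebras with the actions of `W` and `A(e)`, the Springer correspondence, its
triangularity (Borho, MacPherson), and the orthogonality relations of the Green functions
(Springer, Kazhdan, Shoji, Lusztig) for the primes `p ≥ 5`. The explicit table of the 25
irreducible characters of `W` and the Springer correspondence are part of the definitions. The
proof solves the orthogonality relations (`Data`, `Cls`, `Uni`): the identity `P Λ Pᵗ = Ω` is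
verified by the kernel for all `q`, and `P` is unique.
-/

namespace Pool.Agent.Results.MP_eacc3c_al.NotExterior

open Pool.Agent.Lib.MP_eacc3c_al

/-- (1) `ψ` is not injective for `e` in the orbit number `10`, which is `F₄(a₃)`, for every system
of algebras which satisfies the theorems on the Springer fibres listed in `SpringerSystem`.
(2) The theorems on the multiplicities have a solution in natural numbers. -/
theorem result :
    (∀ (H : Fin 16 → Type) [∀ e, CommRing (H e)] [∀ e, Algebra ℂ (H e)]
      (gr : (e : Fin 16) → ℕ → Submodule ℂ (H e))
      (act : (e : Fin 16) → W → A e → (H e →ₐ[ℂ] H e)), SpringerSystem H gr act →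
        ¬ PsiInjective (fun w : W => act 10 w 1) (fun w => reflRep (mat w))) ∧
    ∃ n : Fin 25 → Fin 25 → ℕ → ℕ, Green fun i j m => (n i j m : ℂ) :=
  ⟨fun _ _ _ _ _ S => not_inj_10 S, consistent⟩

end Pool.Agent.Results.MP_eacc3c_al.NotExterior
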